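import Pool.Agent.Run7.h711.PL.Size

/-!
# The exact law and all moments of `[J(K) : 2 J(K)] · #Br(Y)[2]` for all the quadratic twists `Y` of a hyperelliptic
# surface over a finite field, and the Tate conjecture for at least 20.97 percent of them

Let `k` be a finite field of odd characteristic with `q` elements, `K = k(t)`, `g ≥ 1`, and let
`f = x ^ (2 g + 1) + f_{2 g - 1} x ^ (2 g - 1) + ... + f_0` be a polynomial over `k[t]` with
`deg f_j ≤ 2 N (2 g + 1 - j)`, `N ≥ 1`, such that the discriminant of `f` (with respect to `x`) is a squarefree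
polynomial in `t` and the polynomial over `k` formed by the coefficients of `t ^ (2 N (2 g + 1 - j))` in the `f_j` is
irreducible. If the characteristic is larger than `2 g + 1`, these `f` are a positive proportion of all the `f` with
`deg f_j ≤ 2 N (2 g + 1 - j)`. For a squarefree `D` in `k[t]` prime to the discriminant let `Y_D` be a smooth
projective model over `k` of the surface `D(t) y ^ 2 = f(x, t)`, fibred over the line in curves of genus `g` with a
section (the point at infinity), and let `J_D` be the Jacobian of its generic fibre over `K`. The surfaces `Y_D` are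
all the quadratic twists of `Y_1` (with squarefree `D` prime to the discriminant); for `g = 1` they are elliptic
surfaces, and their geometric genus tends to infinity with the degree of `D`.

The Brauer group of `Y_D` is the Tate-Shafarevich group of `J_D` over `K` (Artin, Grothendieck). For `ℓ = 2` the exact
sequence of the question has the third term `V_2 Br` of dimension at most that of `Br(Y_D)[2]`, and the rank of
`NS(Y_D)` is `2 + rank J_D(K)` plus the number of the components of the fibres which do not meet the section. As
`J_D(K)` is finitely generated (Lang, Neron) and has no element of order two (part (1)),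
`[J_D(K) : 2 J_D(K)] = 2 ^ (rank J_D(K))`. So the number

`S(D) = [J_D(K) : 2 J_D(K)] · #Sha(J_D / K)[2] = 2 ^ (rank J_D(K)) · #Br(Y_D)[2]`

controls both the new part of `NS(Y_D)` and what is missing in the Tate conjecture.

**Theorem.** Fix the leading coefficient `u ≠ 0` in `k` and let `D` run through the squarefree polynomials of degree
`m` with leading coefficient `u` which are prime to the discriminant (at least `c q ^ m` of the `q ^ m` polynomials
of degree `m` with leading coefficient `u`, `c > 0`). The field `k` and `f` are fixed, and `m` tends to infinity.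

(1) `S(D) = 2 ^ s` for some `s`, and `J_D(K)` has no element of order two.
(2) The proportion of the `D` with `S(D) = 2 ^ s` tends to `α_s`, `α_s = α_0 ∏_{i = 1}^s 2 / (2 ^ i - 1)`,
`1 / α_0 = ∏_{j ≥ 0} (1 + 2 ^ (-j)) = 4.76846...`.
(3) The mean of `S(D) ^ j` tends to `(1 + 2) (1 + 4) ... (1 + 2 ^ j)` for every `j`; in particular the mean of `S(D)` tends
to `3`. The mean of `φ(S(D))` tends to `∑ α_s φ(2 ^ s)` for all functions `φ` of at most polynomial growth.
(4) If `S(D) = 1`, this is a proportion `α_0 > 0.2097` of the `D` by (2), then multiplication by two is bijective on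
`J_D(K)` and the whole 2-primary part of the Tate-Shafarevich group is zero, even without a condition at the infinite
place.

**Consequences** (not formalised). For the `D` with `S(D) = 1` the Tate conjecture of the question holds for `Y_D` and
every prime `ℓ` (the characteristic included): `Br(Y_D)[2 ^ ∞] = 0`, so `Br(Y_D)` is finite and `c` is an isomorphism
(Artin and Tate, Milne, Kato and Trihan), and `NS(Y_D)` is spanned up to finite index by the section, a fibre and the
components of the reducible fibres. The same holds for `Y_D` over every finitely generated field which contains `k`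
as its largest finite subfield, as the invariants and `NS` do not change. For all `D` the dimension of
`(V_2 Br)^G` plus the rank of `J_D(K)` is at most `log_2 S(D)`, whose mean tends to
`∑_{j ≥ 0} 1 / (1 + 2 ^ j) = 1.2645...`. This is the law and these are the moments predicted by Poonen and Rains for the
2-Selmer group; here `q` is fixed, the twists are in their natural order, and the genus of the fibres is arbitrary.

The starting results of this page about almost all or a positive proportion of the members of a family are about
surfaces with a section of order two, pullbacks, or the family of all `f`; here `f` is fixed, nearly nothing is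
special about it (the Galois group of `f` over `k'(t)`, `k'` the algebraic closure of `k`, is the symmetric group), and
the result is an exact law for all the twists.

Proof. The number `S(D)` is the order of the 2-Selmer group by the exact sequence
`0 → J(K) / 2 J(K) → Sel_2 → Sha[2] → 0` (`Pool/Agent/Run7/h886/PL/Seq.lean`, `Pool/Agent/Run7/h711/PL/SEQ.lean`). The law and the
moments of the 2-Selmer groups are the theorem of project PRL of helper286 (see
`Results/MP_60d5ce_nt/ExactLawOfTwists.lean`) with pieces by helpers 160, 209, 212, 215, 216, 270, 303, 382, 416, 502,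
547, 704, 711, 760, 803, 824, 847, 908, 957, on the basis of project TG (helper784 and many others) and the libraries
TS (helper875), PJ and JB (helper352), PP (helper874); the part on the family of the `f` is in the file
`Pool/Agent/Run7/h886/TG/Port.lean` of helper886. One more prime in `D` changes the dimension of the Selmer group by a
Markov chain whose stationary law is `α`; a reciprocity law shows this, Chebotarev and Weil bounds give the
transition probabilities, and a removal identity passes to the natural order.
-/

set_option autoImplicit false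
set_option linter.all false

open Polynomial Filter IsDedekindDomain
open scoped Classical Topology

namespace Pool.Agent.Results.MP_89bcae_ag.BrauerGroupsOfAllTwists

open Pool.Agent.Y713.Jac (J)
open Pool.Agent.N352.Sha (UniquelyDivisible ShaTrivial)
open Run7.h286.SelDef (ShaTwo twoIndex NoTwoTorsion)

/-! ### The family and the twists -/

section defs

variable {k : Type} [Field k]

/-- The discriminant of the monic polynomial `f` of degree `2 g + 1` in `x` over `k[t]`, up to the sign: the
resultant of `f` and its derivative. -/
noncomputable def discriminant (g : ℕ) (f : k[X][X]) : k[X] :=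
  f.resultant (derivative f) (2 * g + 1) (2 * g)

/-- `f = x ^ (2 g + 1) + f_{2 g - 1} x ^ (2 g - 1) + ... + f_0` with `deg f_j ≤ M (2 g + 1 - j)`. -/
structure HasHeight (g M : ℕ) (f : k[X][X]) : Prop where
  monic : f.Monic
  degree : f.natDegree = 2 * g + 1
  trace : f.coeff (2 * g) = 0
  height : ∀ j ≤ 2 * g, (f.coeff j).natDegree ≤ M * (2 * g + 1 - j)

/-- The reduction of `f` at infinity, the polynomial `x ^ (2 g + 1) + ∑ r_j x ^ j` over `k` where `r_j` is the
coefficient of `t ^ (M (2 g + 1 - j))` in `f_j`. -/
noncomputable def atInfinity (g M : ℕ) (f : k[X][X]) : k[X] :=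
  X ^ (2 * g + 1) + ∑ j ∈ Finset.range (2 * g + 1), C ((f.coeff j).coeff (M * (2 * g + 1 - j))) * X ^ j

/-- The family: squarefree discriminant, irreducible reduction at infinity. -/
structure InFamily (g N : ℕ) (f : k[X][X]) : Prop extends HasHeight g (2 * N) f where
  inert : Irreducible (atInfinity g (2 * N) f)
  squarefree : Squarefree (discriminant g f)

/-- The squarefree polynomials of degree `m` with leading coefficient `u` which are prime to the discriminant
of `f`. -/
def Twists (g : ℕ) (f : k[X][X]) (u : k) (m : ℕ) : Set k[X] :=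
  {D | D.leadingCoeff = u ∧ D.natDegree = m ∧ Squarefree D ∧ IsCoprime D (discriminant g f)}

variable (K : Type) [Field K] [Algebra k[X] K]

/-- The monic equation `y ^ 2 = D ^ (2 g + 1) f(x / D)` of the quadratic twist `D y ^ 2 = f(x)` over
`K = k(t)`, the generic fibre of the surface `Y_D`. -/
noncomputable def twist (f : k[X][X]) (D : k[X]) : K[X] := (f.scaleRoots D).map (algebraMap k[X] K)

variable [IsFractionRing k[X] K]

/-- `S(D) = [J(K) : 2 J(K)] · #Sha(J / K)[2]` for the Jacobian `J` of `D y ^ 2 = f(x)` over `K = k(t)`. Here
`Sha(J / K)[2] = Br(Y_D)[2]`. -/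
noncomputable def size (f : k[X][X]) (D : k[X]) : ℕ :=
  twoIndex (J 2 (twist K f D) K) * Nat.card (ShaTwo k (twist K f D))

/-- Properties of the Jacobian `J` of one twist: `J(K)` has no element of order two, `J(K) / 2 J(K)` is finite,
`S(D)` is a power of two, and if `S(D) = 1`, then multiplication by two is bijective on `J(K)` and the 2-primary part
of the Tate-Shafarevich group is zero. -/
structure Properties (f : k[X][X]) (D : k[X]) : Prop where
  torsion : NoTwoTorsion (J 2 (twist K f D) K)
  finite : twoIndex (J 2 (twist K f D) K) ≠ 0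
  power : ∃ s : ℕ, size K f D = 2 ^ s
  divisible : size K f D = 1 → UniquelyDivisible 2 (J 2 (twist K f D) K)
  sha : size K f D = 1 → ShaTrivial 2 (twist K f D) k[X]

end defs

/-- The sets `T m` of polynomials have at least `c q ^ m` elements for large `m`, `c > 0`. -/
def ManyIn {k : Type} [Field k] (T : ℕ → Set k[X]) : Prop :=
  ∃ c : ℝ, 0 < c ∧ ∀ᶠ m : ℕ in atTop, c * (Nat.card k : ℝ) ^ m ≤ ((T m).ncard : ℝ)

/-- The proportion of the elements of `T m` with the property `P` tends to `a`. -/
def ProportionTendsTo {A : Type} (T : ℕ → Set A) (P : A → Prop) (a : ℝ) : Prop :=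
  Tendsto (fun m => (({D ∈ T m | P D} : Set A).ncard : ℝ) / ((T m).ncard : ℝ)) atTop (𝓝 a)

/-- The mean of `φ` over `T m` tends to `a`. -/
def MeanTendsTo {A : Type} (T : ℕ → Set A) (φ : A → ℝ) (a : ℝ) : Prop :=
  Tendsto (fun m => (∑ᶠ D ∈ T m, φ D) / ((T m).ncard : ℝ)) atTop (𝓝 a)

/-- The weights `∏_{i = 1}^s 2 / (2 ^ i - 1)` of the limit law. -/
noncomputable def weight (s : ℕ) : ℝ := ∏ i ∈ Finset.range s, (2 : ℝ) / (2 ^ (i + 1) - 1)

/-- The limit law. -/
noncomputable def α (s : ℕ) : ℝ := weight s / ∑' i, weight i

/-- The function `S` on the sets `T m` of polynomials has the limit law `α` (on the powers of two), with all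
moments and all means of functions of at most polynomial growth. -/
structure HasLaw {A : Type} (T : ℕ → Set A) (S : A → ℕ) : Prop where
  law : ∀ s : ℕ, ProportionTendsTo T (fun D => S D = 2 ^ s) (α s)
  moments : ∀ j : ℕ, MeanTendsTo T (fun D => (S D : ℝ) ^ j) (∏ i ∈ Finset.Icc 1 j, (1 + (2 : ℝ) ^ i))
  means : ∀ φ : ℕ → ℝ, (∃ C y : ℝ, ∀ s, |φ s| ≤ C * y ^ s) →
    MeanTendsTo T (fun D => φ (Nat.log 2 (S D))) (∑' s, α s * φ s)

/-- The numbers: `∑ α_s = 1`, `1 / α_0 = ∏_{j ≥ 0} (1 + 2 ^ (-j))`, `0.20971 < α_0 < 0.20972`, and the mean of the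
law is `∑_{j ≥ 0} 1 / (2 ^ j + 1)`, between `1.2644` and `1.2646`. -/
structure Numbers : Prop where
  sum : HasSum α 1
  prod : HasProd (fun j : ℕ => 1 + (1 / 2 : ℝ) ^ j) (1 / α 0)
  lower : 0.20971 < α 0
  upper : α 0 < 0.20972
  mean : HasSum (fun j : ℕ => 1 / ((2 : ℝ) ^ j + 1)) (∑' s, α s * s)
  meanLower : 1.2644 < ∑' s, α s * (s : ℝ)
  meanUpper : ∑' s, α s * (s : ℝ) < 1.2646

/-- A positive proportion of the `f` with `deg f_j ≤ 2 N (2 g + 1 - j)` is in the family, `N → ∞`. -/
def ManyFamilies (k : Type) [Field k] (g : ℕ) : Prop :=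
  ∃ c : ℝ, 0 < c ∧ ∀ᶠ N : ℕ in atTop,
    0 < {f : k[X][X] | HasHeight g (2 * N) f}.ncard ∧
    c * ({f : k[X][X] | HasHeight g (2 * N) f}.ncard : ℝ) ≤ ({f : k[X][X] | InFamily g N f}.ncard : ℝ)

/-! ### Comparison with the definitions of the proof -/

theorem inFam {k : Type} [Field k] {g N : ℕ} {f : k[X][X]} :
    InFamily g N f ↔ Run7.h886.TG.InFam g N f :=
  ⟨fun h => ⟨⟨h.monic, h.degree, h.trace, h.height⟩, h.inert, h.squarefree⟩,
    fun h => ⟨⟨h.ht.mon, h.ht.deg, h.ht.tr, h.ht.ht⟩, h.inert, h.sq⟩⟩

theorem hLw (φ : ℕ → ℝ) : Run7.h286.PL.Lw φ = ∑' s, α s * φ s := by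
  unfold Run7.h286.PL.Lw
  rw [← tsum_div_const]
  refine tsum_congr fun s => ?_
  show weight s * φ s / ∑' i, weight i = α s * φ s
  unfold α
  ring

theorem numbers : Numbers := by
  obtain ⟨n1, n2, n3, n4, n5⟩ := Run7.h160.PL.num
  have hW : Run7.h286.PL.wt = weight := rfl
  rw [hW] at n1 n2 n3 n4
  have hs : 4.76845 < ∑' i, weight i ∧ ∑' i, weight i < 4.76847 := by
    rw [abs_lt] at n4
    constructor <;> linarith [n4.1, n4.2]
  have h0 : α 0 = 1 / ∑' i, weight i := by
    unfold α
    rw [show weight 0 = 1 by simp [weight]]
  have hpos : 0 < ∑' i, weight i := by linarith [hs.1]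
  obtain ⟨q1, q2, q3, q4, q5⟩ := Run7.h547.PL.qid
  rw [hLw] at q4 q5
  rw [abs_lt] at q5
  refine ⟨?_, ?_, ?_, ?_, q4, by linarith [q5.1], by linarith [q5.2]⟩
  · have h1 := n2.hasSum.div_const (∑' i, weight i)
    rwa [div_self hpos.ne'] at h1
  · rw [h0, one_div_one_div]
    exact n3
  · rw [h0, lt_div_iff₀ hpos]
    nlinarith [hs.2]
  · rw [h0, div_lt_iff₀ hpos]
    nlinarith [hs.1]

/-- **Theorem.** Let `k` be a finite field of odd characteristic with `q` elements, `K = k(t)`, `g ≥ 1`.

(A) Let `f` be in the family and `u ≠ 0` in `k`, and let `D` run through the squarefree polynomials of degree `m`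
with leading coefficient `u` which are prime to the discriminant of `f`. There are at least `c q ^ m` of them, `c > 0`,
`m` large. All of them have the properties `Properties`, and the numbers `S(D) = [J(K) : 2 J(K)] · #Sha(J / K)[2]` have
the limit law `α` for `m → ∞`, with all moments; in particular the mean of `S(D)` tends to `3`.
(B) The numerical values of the law.
(C) If the characteristic is larger than `2 g + 1`, a positive proportion of all `f` with
`deg f_j ≤ 2 N (2 g + 1 - j)` belongs to the family. -/
theorem result (g : ℕ) (hg : 1 ≤ g) (k : Type) [Field k] [Finite k] (h2 : (2 : k) ≠ 0)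
    (K : Type) [Field K] [Algebra k[X] K] [IsFractionRing k[X] K] :
    (∀ (N : ℕ) (f : k[X][X]), 1 ≤ N → InFamily g N f → ∀ u : k, u ≠ 0 →
      ManyIn (Twists g f u) ∧ (∀ m, ∀ D ∈ Twists g f u m, Properties K f D) ∧
        HasLaw (Twists g f u) (size K f)) ∧
    Numbers ∧ (((2 * g + 1).factorial : k) ≠ 0 → ManyFamilies k g) := by
  refine ⟨fun N f hN hf u hu => ?_, numbers, fun hp => ?_⟩
  · have hF := (inFam.1 hf).fm hg hN h2
    refine ⟨Run7.h711.PL.many hF hu, fun m D hD => ?_, fun s => Run7.h711.PL.law K hF hu s,
      fun j => Run7.h711.PL.moment K hF hu j, fun φ hφ => ?_⟩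
    · obtain ⟨h1, h2, h3, h4⟩ := Run7.h711.PL.one K hF hu hD
      exact ⟨h2, h3, ⟨_, h1⟩, fun h => (h4 h).1, fun h => (h4 h).2⟩
    · rw [← hLw]
      exact Run7.h711.PL.mean K hF hu (fun n => φ (Nat.log 2 n)) φ
        (fun d => by rw [Nat.log_pow (by norm_num)]) hφ
  · obtain ⟨c, hc, h⟩ := Run7.h886.TG.fam_pos (k := k) g hg hp
    refine ⟨c, hc, ?_⟩
    filter_upwards [h] with N hN
    have e1 : {f : k[X][X] | HasHeight g (2 * N) f} =
        {f : k[X][X] | Pool.Agent.N352.PJ.Ht g (2 * N) f} := Set.ext fun f =>
          ⟨fun h => ⟨h.monic, h.degree, h.trace, h.height⟩, fun h => ⟨h.mon, h.deg, h.tr, h.ht⟩⟩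
    have e2 : {f : k[X][X] | InFamily g N f} = {f : k[X][X] | Run7.h886.TG.InFam g N f} :=
      Set.ext fun f => inFam
    rw [e1, e2]
    exact hN

end Pool.Agent.Results.MP_89bcae_ag.BrauerGroupsOfAllTwists
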