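import Pool.Agent.Run7.h735.CP.Main

/-!
# The Tate conjecture for cyclic coverings of the plane, from the zeta function of the branch curve at one place

Let `W` be a Weil cohomology theory (for instance `ℓ`-adic cohomology for any prime `ℓ`, with coefficients in an
algebraic closure of `ℚ_ℓ`) on a class of smooth projective varieties over the algebraic closure of a finitely generated
field (for instance a number field), `Γ` the Galois group and `χ` its action on the Tate twists.

Let `n = p ^ s` be a power of a prime `p`, and let `S` be a resolution of a compactification of the cyclic covering
`w ^ n = F(x, y)` of the affine plane.  The cohomology of `S` is the orthogonal sum of a space spanned by classes of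
cycles and of a part `P` of `H^2`, where `P` is the sum of the parts for the nontrivial characters of the covering group.
For instance let the branch curve `F = 0` be smooth, and let the leading form of `F` be `y ^ a + x ^ b` (so the other
monomials are below the segment between `y ^ a` and `x ^ b`), where `n`, `a` and `b` are pairwise coprime: then `P` is the
cohomology with compact supports of the affine surface, all its parts have the dimension `(a - 1) (b - 1)`, the curves
at infinity are a tree of rational curves and their classes span the orthogonal complement of `P` in `H^2`.

At a place with residue field `κ`, `|κ| = q ≡ 1` modulo `n`, let `P₁(T) / (P₂(T) (1 - q T))` be the zeta function of the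
affine curve `F = 0` over `κ`, and suppose that `H = P₁ / P₂` modulo `p` is a polynomial.  In the instance above `P₂ = 1`
and `H` is the numerator of the zeta function of the complete curve, modulo `p`.

**Theorem.**  Suppose that for all `M` prime to `p` the power `Φ_M ^ (c_M + 1)` of the cyclotomic polynomial does not
divide `H` in `𝔽_p[T]`.

1. Over every finite extension of the base field the space of the Tate classes in `P` has at most the dimension
   `(n - 1) ∑ φ(M) c_M`.  In particular the Picard number of `S` is at most this number plus the rank of the part from the
   plane and from the exceptional curves.
2. If the combinations of classes of curves in `P` form a space of this dimension, then the Tate conjecture holds for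
   `S` over all finite extensions of the base field: the Tate classes are the combinations of classes of divisors over
   the same extension.
3. If no `Φ_M` with `M` prime to `p` divides `H`, then the Tate conjecture holds for `S` over all finite extensions in the
   strong form -- the natural map from `NS ⊗ K` to the space of Tate classes is bijective (this is the map `c` of the
   problem, with coefficients extended), homological equivalence is numerical equivalence -- and there are no Tate
   classes in `P`, which is the orthogonal complement of the Néron-Severi group.

So the hypothesis is only on the branch *curve*, at one place, and modulo `p`: no number of points of the surface is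
needed.  The surfaces can have any geometric genus, and `ℓ` is arbitrary.

An example for the third part (the numbers of points were computed outside of Lean): `n = 3`, `F = y ^ 4 + y ^ 3 +
x ^ 2 y ^ 2 + x ^ 5 + 1`, a surface with geometric genus `2` and `dim P = 24`.  Modulo `2` the branch curve has good
reduction and `1, 3, 7, 15, 41, 51` affine points over the fields with `2, 4, 8, 16, 32, 64` elements, so over the field
with `4` elements the numerator of its zeta function is
`1 - T - 4 T^3 + 8 T^4 - 4 T^5 + 64 T^6 - 16 T^7 + 128 T^8 - 256 T^9 - 1024 T^11 + 4096 T^12`, which modulo `3` is not
divisible by any cyclotomic polynomial of an order prime to `3`.  Hence for all `ℓ` the Tate conjecture holds for this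
surface over all number fields, and its Picard group is generated up to finite index by the curves at infinity.

Proof.  The trace of the `m`-th power of Frobenius on the part for the character `θ ^ j` is the sum of the values of
`θ ^ j` on the norms of `F(x, y)`, for the points `(x, y)` over the extension of degree `m` of `κ`.  Since `θ` has the
order `n = p ^ s`, its values are congruent to `1` modulo a prime above `p`, and so the sum is congruent to the number of
the points of the plane outside of the curve.  Hence the characteristic polynomial of Frobenius on the part is
congruent to `H`, and the eigenvalues `q ζ` with `ζ` a root of unity, with their multiplicities, give powers of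
cyclotomic polynomials dividing `H`; a primitive root of unity of order `M p ^ b` reduces to one of order `M`, so that
all `b` are counted together (this part is in the starting file `Pool/Agent/Y134/Cyc/Tate`).  A Tate class over some
finite extension is a combination of eigenvectors for eigenvalues `q ζ`, and the dimension of their space is the sum of
the multiplicities over all `M` and over the `n - 1` parts; each part and each `M` contributes at most `φ(M) c_M`, whence
the bound.  If the combinations of classes of curves in `P` have this dimension then they are all the Tate classes in
`P` over a large finite extension, and Tate classes over smaller extensions are obtained by averaging.  If `c = 0` then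
`P` contains no class but zero which is a combination of classes of curves, so that a class of a curve is orthogonal to
`P`, homological and numerical equivalence coincide since the form is nondegenerate, and classes of divisors which are
linearly independent over `ℚ` remain independent, as the intersection numbers are rational.
-/

set_option autoImplicit false

universe u

namespace Pool.Agent.Results.MP_89bcae_ag.CyclicCoversOnePlace

open Polynomial Pool.Agent.H914 Pool.Agent.TH125.Gal Pool.Agent.Y130 Pool.Agent.Y134.TF
  Pool.Agent.Run7.h735.TP Pool.Agent.Run7.h735.CP

/-- **The Tate conjecture for cyclic coverings of the plane, from the zeta function of the branch curve at one place.**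
Let `S` be (a resolution of) a cyclic covering of degree `p ^ s` of the plane, with the part `S.P` for the nontrivial
characters, and `H` the quotient modulo `p` of the zeta function of the branch curve at one place.  If for all `M` prime
to `p` the cyclotomic polynomial `Φ_M` divides `H` at most `c M` times, then the Tate classes in `S.P` over any finite
extension form a space of dimension at most `(p ^ s - 1) ∑ φ(M) c(M)`; if the classes of curves in `S.P` attain this
number then the Tate conjecture holds for `S` over all finite extensions; and if `c = 0` then it holds in the strong form
`TateHolds`, and there are no Tate classes in `S.P`. -/
theorem result {k : Type u} [Field k] {𝒱 : VarClass k} {ops : CycleOps 𝒱}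
    (W : WeilCohomology.{u, 0} ops) [IsAlgClosed W.K] {Γ : Type} [Group Γ] (χ : Γ →* W.Kˣ)
    (S : PVar W Γ) (h : Cover χ S 1) {p s : ℕ} (hp : p.Prime) (hs : 1 ≤ s) (H : (ZMod p)[X])
    (v : CyclicPlace χ S.act S.P p s H) (c : ℕ →₀ ℕ) (hc : Divides p H c) :
    (∀ Δ : Subgroup Γ, Δ.FiniteIndex → tateRank χ S Δ ≤ bound p s c) ∧
      (bound p s c ≤ curveRank S → TateOverAll χ S) ∧
      (c = 0 → TateHolds χ S 1) :=
  ⟨fun _ hΔ => finrank_tate hp hs v hc hΔ, tate_attained h hp hs v hc,
    fun h0 => tate_zero h hp hs v (h0 ▸ hc)⟩

end Pool.Agent.Results.MP_89bcae_ag.CyclicCoversOnePlace
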