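import Pool.Agent.Run7.h615.EP.Lp
import Pool.Agent.Run7.h615.EP.Qd
import Pool.Agent.Run7.h615.EP.In
import Pool.Agent.Run7.h615.EP.Fo

/-!
# The Tate conjecture for the pencils `y ^ ℓ = f(x) - t` over Galois covers of the `t`-line of `ℓ`-power
# degree

Let `k` be any perfect field (for instance a number field, a field finitely generated over `ℚ`, a finite
field, or the perfect closure of a finitely generated field), `K = k(t)`, `ℓ` a prime different from the
characteristic such that `k` contains the `ℓ`-th roots of unity, and `f` a polynomial over `k` with
`f' ≠ 0` whose degree is not divisible by `ℓ`. Let `L / K` be any finite Galois extension of `ℓ`-power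
degree in which all the finite places of `K` which have more than one place above them in `k(x)`,
`t = f(x)`, are unramified. (The other places, and the infinite place, may be ramified.) So `L` is the
function field of a curve of arbitrary genus.

Let `M = A(Ω)` be the group of points over the separable closure `Ω` of `K` of an abelian variety `A`
over `K` with an endomorphism `λ` whose kernel is the Galois module of the functions of sum zero on the
set of the roots of `f(x) = t` with values in `ℤ / ℓ`, such that `λ` is surjective on the points over the
maximal unramified extensions of the completions of `K` at these places (`IsMod`, `DivAt`): for instance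
the Jacobian of `y ^ ℓ = f(x) - t` with `λ = 1 - ζ`, since the affine surface `y ^ ℓ = f(x) - t` is
smooth.

**Theorem** (`Vanishes`). (1) `λ` is bijective on `A(L)`. (2) There is no nonzero class in `H¹(L, A)[λ]`
which is trivial on the inertia groups of these places. (3) Let `k'` be the algebraic closure of `k` in
`Ω`. No nonzero element of the `λ`-primary Selmer group of `A` over `k' L` is fixed by the Galois group
of `L`.

If `A` is an elliptic curve, or the Jacobian of the generic fibre, and `X` is the smooth projective
surface with a fibration over the curve with function field `L` with this generic fibre, then `Br(X̄)` is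
the Tate-Shafarevich group over `k' L` (Artin, Grothendieck; up to `p`-torsion and finite groups), and
by (3) the group `V_ℓ Br(X̄)` has no invariants: this is the Tate conjecture for divisors on `X` at `ℓ`.
(The group of points over `k' L` is finitely generated by the theorem of Lang and Néron, so that each
invariant element of `V_ℓ` of the Tate-Shafarevich group comes from an invariant element of `V_ℓ` of the
Selmer group.)

All hypotheses are proved for the elliptic curves `y² = x³ + a x² + b x + c - t`, `a`, `b`, `c` in `k`
and `ℓ = 2`, for all perfect fields `k` of characteristic different from two (`c - t` may be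
replaced by any linear polynomial in `t` by a substitution). Here (1) means that the group `E(L)` is
finite of odd order (it is finitely generated).

Examples of fields `L` are all the fields generated by `ℓ`-th roots of products of constants and of
irreducible polynomials `π(t)` with only one place above, that is, for which `π(f(x))` is a constant
times a power of an irreducible polynomial. For `k = ℚ` and `f = x³ + a x² + b x + c` with integral
coefficients, `t - m` is such a polynomial for all the integers `m` which are not values of `f` at
integers.

The proof: the `ℓ`-group `Gal(L / K)` acts on the finite group of the classes with values in `A[λ]`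
over `L` which satisfy the local conditions; if it is not zero, there is a nonzero fixed class, which
extends to a class over `K`, as `A[λ]` has no invariants over `L`. This is given by a character of order
`ℓ` of the Galois group of `k(x)`, that is, by an element of `k(x)` modulo `ℓ`-th powers. Its divisor is
divisible by `ℓ` outside the places which are the only ones above their restriction to `k(t)`, and `k[x]`
is factorial, so it comes from `k(t)`, and the class is zero. In the same way the classes over `k' L` fixed
by the Galois group extend to classes over `L`.
-/

set_option autoImplicit false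

namespace Pool.Agent.Results.MP_89bcae_ag.PencilsOverGaloisCovers

open Polynomial Run7.h615.EP

/-- The theorem for Galois modules, over the perfect field `k`. -/
def ForModules : Prop :=
  ∀ (k K Ω M : Type) [Field k] [PerfectField k] [Field K] [Algebra k[X] K] [IsFractionRing k[X] K]
    [Field Ω] [Algebra K Ω] [IsSepClosure K Ω] [AddCommGroup M] [DistribMulAction (Ω ≃ₐ[K] Ω) M]
    (f : k[X]) (ℓ : ℕ) (ζ : k) (lam : M →+ M) (L : IntermediateField K Ω)
    [FiniteDimensional K L] [IsGalois K L] (j : ℕ),
    ℓ.Prime → IsPrimitiveRoot ζ ℓ → derivative f ≠ 0 → ¬ ℓ ∣ f.natDegree →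
    IsMod (K := K) (Ω := Ω) f ℓ lam → Module.finrank K L = ℓ ^ j → IsUnram f L →
    Vanishes f lam L

/-- The points over `L` of the curve `y² = x³ + a x² + b x + c - t`. -/
abbrev PtsOver {k K Ω : Type} [Field k] [Field K] [Algebra k[X] K] [Field Ω] [Algebra K Ω]
    (a b c : k) (L : IntermediateField K Ω) : Type :=
  (WeierstrassCurve.Affine.baseChange (crv K a b c) L).Point

/-- The theorem for the elliptic curves `y² = x³ + a x² + b x + c - t`. -/
def ForCurves : Prop :=
  ∀ (k K Ω : Type) [Field k] [PerfectField k] [Field K] [Algebra k[X] K] [IsFractionRing k[X] K]
    [Field Ω] [DecidableEq Ω] [Algebra K Ω] [IsSepClosure K Ω] (a b c : k)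
    (L : IntermediateField K Ω) [DecidableEq L] [FiniteDimensional K L] [IsGalois K L] (j : ℕ),
    (2 : k) ≠ 0 → derivative (cub a b c) ≠ 0 → Module.finrank K L = 2 ^ j →
    IsUnram (cub a b c) L →
    Vanishes (cub a b c) (mulTwo K Ω a b c) L ∧ (∀ P : PtsOver a b c L, ∃! Q, Q + Q = P) ∧
      (AddGroup.FG (PtsOver a b c L) → Finite (PtsOver a b c L) ∧
        Odd (Nat.card (PtsOver a b c L)))

/-- The fields generated by `ℓ`-th roots of polynomials in `t` all of whose prime divisors have only
one place above them satisfy the conditions. -/
def KummerFields : Prop :=
  ∀ (k K Ω : Type) [Field k] [Field K] [Algebra k[X] K] [IsFractionRing k[X] K] [Field Ω]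
    [Algebra K Ω] [IsSepClosure K Ω] (f : k[X]) (ℓ : ℕ) (ζ : k) (S : Set Ω),
    ℓ.Prime → IsPrimitiveRoot ζ ℓ → S.Finite →
    (∀ s ∈ S, ∃ d : k[X], d ≠ 0 ∧ s ^ ℓ = pol K Ω d ∧
      ∀ π : k[X], Irreducible π → π ∣ d → OneAbove f π) →
    FiniteDimensional K (IntermediateField.adjoin K S) ∧
    IsGalois K (IntermediateField.adjoin K S) ∧
    (∃ j, Module.finrank K (IntermediateField.adjoin K S) = ℓ ^ j) ∧
    IsUnram f (IntermediateField.adjoin K S)

/-- Over the field of rational numbers the places `t - m` have only one place above them, for the cubic
polynomials `f` with integral coefficients and the integers `m` which are not values of `f`. -/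
def RationalPlaces : Prop :=
  ∀ a b c m : ℤ, (∀ x : ℤ, x ^ 3 + a * x ^ 2 + b * x + c ≠ m) →
    OneAbove (cub (a : ℚ) b c) (X - C (m : ℚ))

theorem result : ForModules ∧ ForCurves ∧ KummerFields ∧ RationalPlaces := by
  refine ⟨?_, ?_, ?_, ?_⟩
  · intro k K Ω M _ _ _ _ _ _ _ _ _ _ f ℓ ζ lam L _ _ j hℓ hζ hf hd hM hL hu
    have : Fact ℓ.Prime := ⟨hℓ⟩
    exact vanishes f hf ζ hζ hd hM L hL hu
  · intro k K Ω _ _ _ _ _ _ _ _ _ a b c L _ _ _ j h2 hf hL hu
    have hζ : IsPrimitiveRoot (-1 : k) 2 := by
      refine IsPrimitiveRoot.mk_of_lt _ (by norm_num) (by norm_num) ?_
      intro l hl0 hl2 hl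
      have : l = 1 := by omega
      rw [this, pow_one] at hl
      apply h2
      have h3 : (2 : k) = 1 - (-1) := by ring
      rw [h3, hl, sub_self]
    have : Fact (Nat.Prime 2) := ⟨Nat.prime_two⟩
    have hV : Vanishes (cub a b c) (mulTwo K Ω a b c) L :=
      vanishes _ hf (-1 : k) hζ (by rw [cub_deg]; norm_num) (isMod_pts h2 hf) L hL hu
    have hU := fun P => half_unique L hV P
    exact ⟨hV, hU, fun hfg => fin_odd hU⟩
  · intro k K Ω _ _ _ _ _ _ _ f ℓ ζ S hℓ hζ hS hd
    exact kummer_ext hℓ hζ f hS hd
  · intro a b c m h
    exact oneAbove_int h

end Pool.Agent.Results.MP_89bcae_ag.PencilsOverGaloisCovers
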