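import Pool.Agent.Run7.h316.EQ.Tate
import Pool.Agent.Run7.h316.EQ.Typ

/-!
# The Tate conjecture at `p`, with exact rank, for surfaces whose coefficients are primes, or run through
# equidistributed, metric or random sequences, over all number fields at once

Let `n ≥ 1`, `D ≥ 2`, `n ≤ r + 1`. For a vector `v` of `n + D + r + 2` integers let `ρ_1, …, ρ_n` be the
first coordinates, `u` monic of degree `D` and `b` of degree at most `r` with the next coordinates as
coefficients, and `c` the last coordinate. Let `p` be a prime, `q = p ^ (s + 1)`, `q r < n + D`, `p` prime to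
`n + D`, and `R` odd and prime to `p` (`Cond`). For `d ≥ 1` and `M ≥ 1` consider the surface

  `w ^ q = (x ^ M - ρ_1) ⋯ (x ^ M - ρ_n) u(x ^ M) + (b(x ^ M) + c t ^ (p ^ d)) ^ q`

and the Jacobian `J` of its generic fibre over the line with coordinate `t`; the dimension of `J` is
`(q - 1) ((n + D) M - 1) / 2`, and the geometric genus of the surface is unbounded.

`ManyWorks` (for a number field `k` with the roots of unity of order `q` and a `p`-th root of `-1`): for ALL
`d ≥ 1` and ALL `M` which divide a power of `R`

1. every class of `V_p` of the Selmer group of `J` over `k^sep(t)` which is fixed by the Galois group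
   comes from `J(K)`, `K = k(t)` (the Tate conjecture for divisors at `p` for the surface);
2. the `p`-primary part of the Tate-Shafarevich group of `J` over `K` is zero;
3. `n (q - 1)` elements of `J(K)` are a basis of `J(K)` at `p`: the rank is exactly `n (q - 1)`.

`Usually … Ω S v`: the `v w`, `w ∈ Ω`, are integral vectors, the `S M ⊂ Ω` finite sets, and for ALL `p`, `s`,
`R` as above and ALL number fields `k` with the roots of unity of order `q` and a `p`-th root of `-1` the
proportion of the `w ∈ S M` for which `ManyWorks` does not hold for `v w` over `k` tends to zero, `M → ∞`.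

**Theorem.** `Usually` is a robust property (`Pool.Agent.Run7.h316.EQ.Robust`):

(1) All dominated families have it: there are `C`, `A`, `M` such that for all squarefree `m` prime to `M` at
most the proportion `C (m / φ(m)) ^ A m ^ (-(n + D + r + 2)) + o(1)` of the `v w`, `w ∈ S N`, is in a given
class modulo `m`. (All equidistributed sequences, along arbitrary sets of times, are dominated, and all their
subfamilies of positive lower density.)
(2) - (4) Metric sequences: `(⌊f_{i,l}(x_i)⌋)_i` for Koksma sequences `f_{i,0}, f_{i,1}, …`,
`(⌊a_{i,l} x_i⌋)_i` for arbitrary sequences of different integers (or of real numbers with a gap) and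
`(⌊ξ_i x_i ^ (k_l)⌋)_i`, for almost all `x` (which do not depend on `p`, `s`, `R` and `k`).
(5) Random orbits of groups of integral matrices of determinant one which generate `SL(ℤ/m)` for all `m`
prime to some number (all Zariski dense groups, possibly of infinite index).
(6) Generalised polynomials `(⌊∑_t a_{i,t} l ^ t⌋)_i` at the integers and at the primes `l` of `(M, 2M]`
(this part is contained in `MP_97f789_ag.ThinSequences` of helper650).
(7) PRIME COEFFICIENTS: for all `p`, `s`, `R` and `k` the proportion of the vectors `v` of prime numbers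
`≤ M` for which `ManyWorks` does not hold tends to zero.

Proof. The starting library (helper160 with helpers 100, 430, 737, 833 and 971) reduces the conclusions to
finitely many tests; each is passed by a positive proportion of the residues of `v` modulo each large prime
`P` which is `1` modulo `p R` and for which `k` embeds in `ℚ_P`. Hence each of the finitely many sets of
vectors which fail one of the tests at all primes is very null, and very null sets are an ideal. Metric
sequences: `Pool.Agent.N24.KM` (helpers 24, 344, 617, 199, 764, 432, 286); random orbits: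
`Pool.Agent.N24.RW` (helpers 24, 123, 195, 300, 543, 765); generalised polynomials: `Pool.Agent.N666.TM`
(helper666); `Pool.Agent.N918.EQ` (helper918); number fields: `Pool.Agent.N650.TH` (helper650); primes: the
prime number theorem for arithmetic progressions (helper923).
-/

set_option autoImplicit false

namespace Pool.Agent.Results.MP_89bcae_ag.RobustManySections

open Pool.Agent.Y160.SL (ManyWorks)
open Pool.Agent.Run7.h316.EQ (VeryNull Rare Robust)

/-- The conditions for the numbers. -/
def Cond (n D r p s R : ℕ) : Prop :=
  p.Prime ∧ p ^ (s + 1) * r < n + D ∧ p.Coprime (n + D) ∧ Odd R ∧ p.Coprime R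

/-- For all `p`, `s`, `R` and all number fields `k` with the roots of unity of order `p ^ (s + 1)` and a `p`-th
root of `-1` the proportion of the `w` in `S M` for which `ManyWorks` does not hold for `v w` over `k` tends to
zero, `M → ∞`. -/
def Usually (n D r : ℕ) (Ω : Type) (S : ℕ → Finset Ω) (v : Ω → Fin (n + (D + (r + 2))) → ℤ) :
    Prop :=
  ∀ (p s R : ℕ), Cond n D r p s R → ∀ (k : Type) [Field k] [NumberField k] (ζ η : k),
    IsPrimitiveRoot ζ (p ^ (s + 1)) → η ^ p = -1 → ∀ ε : ℝ, 0 < ε → ∃ M₀ : ℕ, ∀ M : ℕ, M₀ ≤ M →
      (({w : Ω | w ∈ S M ∧ ¬ ManyWorks p (p ^ (s + 1)) n D r R k (v w)}.ncard : ℕ) : ℝ) ≤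
        ε * (S M).card

theorem result (n D r : ℕ) (hn : 0 < n) (hD : 2 ≤ D) (hnr : n ≤ r + 1) :
    Robust (Usually n D r) := by
  have : NeZero (n + (D + (r + 2))) := ⟨by omega⟩
  refine Pool.Agent.Run7.h316.EQ.robust_countable (I := Pool.Agent.Run7.h316.EQ.Tate.Dat)
    (Pool.Agent.Run7.h316.EQ.Tate.DBad n D r)
    (fun φ => (Pool.Agent.Run7.h316.EQ.Tate.dbad_null hn hD hnr φ).strong) _ ?_
  intro Ω S v hR p s R hc k _ _ ζ η hζ hη ε hε
  obtain ⟨φ, hφ⟩ := Pool.Agent.Run7.h316.EQ.Tate.exc_cover hc k
  obtain ⟨M₀, hM₀⟩ := hR φ ε hε
  refine ⟨M₀, fun M hM => le_trans ?_ (hM₀ M hM)⟩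
  refine Nat.cast_le.2 (Set.ncard_le_ncard ?_ ((S M).finite_toSet.subset fun w hw => hw.1))
  rintro w ⟨h1, h2⟩
  refine ⟨h1, hφ ?_⟩
  by_contra h
  exact h2 (Pool.Agent.Run7.h316.EQ.Tate.works_of_exc hn hD hc k ζ η hζ hη h)

end Pool.Agent.Results.MP_89bcae_ag.RobustManySections
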